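import Pool.Agent.Work.MP_db9399_ot.Base
import Pool.Agent.Work.MP_db9399_lh_helper22.NDEC

/-! THEOREM OUT, block NDEC: the near-decomposition (FAC once for every pair of cells and every
type); modification of the block NDEC of THEOREM LCH by helper22 (after helper54). -/

set_option autoImplicit false

namespace Pool.Agent.Work.MP_db9399_ot.helper52

open Finset Classical
open Pool.Agent.Work.MP_db9399_all (nb)
open Pool.Agent.Work.MP_db9399_dn (IsMat)
open Pool.Agent.Work.MP_db9399_bg (den cl LabP Lbl c3f c3 rs rs_symm Ix mem_nb mem_cl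
  den_nonneg den_mono c3f_inj mem_c3 two_mul_inj)
open Pool.Agent.Work.MP_db9399_lc (BL)
open Pool.Agent.Work.MP_db9399_lc.helper54 (In2 hdet In2_c3 In2_ne posn posn_lt posn_inj
  exists_In2 card_sdiff_UH)
open Pool.Agent.Work.MP_db9399_lh (Cr Lh ce su kp io sp pt cr cy ty bb f0 fq ft f0_ge fq_pos
  f0_le fq_le mem_cy mem_bb den_cy den_bb den_ty frac_ty ty_symm)
open Pool.Agent.Work.MP_db9399_lh.helper22 (ty_unique ty_right Gt As mem_As nb_Gt nb_Gt2 den_n1
  den_n2 den_cell le_deg card_big)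

universe u

/-- position of `s` among the indices of the same type -/
noncomputable def rk {T : Type} [DecidableEq T] {w : ℕ} (τ : Fin w → T) (s : Fin w) : ℕ :=
  (univ.filter (fun s' => τ s' = τ s ∧ s' < s)).card

theorem rk_lt {T : Type} [DecidableEq T] {w : ℕ} (τ : Fin w → T) (s : Fin w) :
    rk τ s < (univ.filter (fun s' => τ s' = τ s)).card := by
  apply card_lt_card
  rw [Finset.ssubset_iff_of_subset]
  · refine ⟨s, ?_, ?_⟩
    · rw [mem_filter]
      exact ⟨mem_univ _, rfl⟩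
    · rw [mem_filter]
      exact fun h => lt_irrefl _ h.2.2
  · intro z hz
    rw [mem_filter] at hz ⊢
    exact ⟨hz.1, hz.2.1⟩

theorem rk_lt_rk {T : Type} [DecidableEq T] {w : ℕ} {τ : Fin w → T} {s s' : Fin w} (h : τ s = τ s')
    (hs : s < s') : rk τ s < rk τ s' := by
  apply card_lt_card
  rw [Finset.ssubset_iff_of_subset]
  · refine ⟨s, ?_, ?_⟩
    · rw [mem_filter]
      exact ⟨mem_univ _, h, hs⟩
    · rw [mem_filter]
      exact fun h => lt_irrefl _ h.2.2
  · intro z hz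
    rw [mem_filter] at hz ⊢
    exact ⟨hz.1, hz.2.1.trans h, hz.2.2.trans hs⟩

theorem rk_inj {T : Type} [DecidableEq T] {w : ℕ} {τ : Fin w → T} {s s' : Fin w} (h : τ s = τ s')
    (hs : rk τ s = rk τ s') : s = s' := by
  rcases lt_trichotomy s s' with h1 | h1 | h1
  · exact absurd hs (rk_lt_rk h h1).ne
  · exact h1
  · exact absurd hs.symm (rk_lt_rk h.symm h1).ne

/-- the types: those of LCH inside the host, and the classes -/
abbrev TT (n : ℕ) : Type := Option (ZMod 3) ⊕ Fin n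

/-- the type of an index -/
def kt {w n : ℕ} (τ : Fin w → Option (ZMod 3)) (ι : Fin w → Option (Fin n)) (s : Fin w) : TT n :=
  match ι s with
  | none => Sum.inl (τ s)
  | some i => Sum.inr i

theorem kt_none {w n : ℕ} {τ : Fin w → Option (ZMod 3)} {ι : Fin w → Option (Fin n)} {s : Fin w}
    (h : ι s = none) : kt τ ι s = Sum.inl (τ s) := by
  unfold kt
  rw [h]

theorem kt_some {w n : ℕ} {τ : Fin w → Option (ZMod 3)} {ι : Fin w → Option (Fin n)} {s : Fin w}
    {i : Fin n} (h : ι s = some i) : kt τ ι s = Sum.inr i := by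
  unfold kt
  rw [h]

theorem kt_inl {w n : ℕ} {τ : Fin w → Option (ZMod 3)} {ι : Fin w → Option (Fin n)} {s : Fin w}
    {t : Option (ZMod 3)} : kt τ ι s = Sum.inl t ↔ ι s = none ∧ τ s = t := by
  cases h : ι s with
  | none =>
    rw [kt_none h]
    simp
  | some i =>
    rw [kt_some h]
    simp

theorem kt_inr {w n : ℕ} {τ : Fin w → Option (ZMod 3)} {ι : Fin w → Option (Fin n)} {s : Fin w}
    {i : Fin n} : kt τ ι s = Sum.inr i ↔ ι s = some i := by
  cases h : ι s with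
  | none =>
    rw [kt_none h]
    simp
  | some j =>
    rw [kt_some h]
    simp

/-- the excluded part of a type -/
def xp {n : ℕ} (t : TT n) : Option (ZMod 3) := Sum.elim (fun t => t) (fun _ => none) t

/-- the proportion of a type -/
noncomputable def fT {n : ℕ} (l S ν : ℕ) (t : TT n) : ℝ :=
  Sum.elim (fun t => ft l S ν t) (fun _ => 1) t

section
variable {V : Type u} [Fintype V] {l m r K K1 S : ℕ} {w n : ℕ}

/-- the edges of a type -/
def GT (ν : ℕ) (H : SimpleGraph V) (Gc : Fin n → SimpleGraph V) (lab : V → Lh l m r K K1 S)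
    (t : TT n) : SimpleGraph V := Sum.elim (fun t => Gt ν t H lab) (fun i => Gc i) t

/-- from the matchings of the pairs to the near-decomposition -/
theorem combine (hl : 3 ≤ l) {ν : ℕ} {H : SimpleGraph V} {Gc : Fin n → SimpleGraph V}
    (hdH : ∀ i v v', (Gc i).Adj v v' → ¬ H.Adj v v')
    (hdd : ∀ i j, i ≠ j → ∀ v v', (Gc i).Adj v v' → ¬ (Gc j).Adj v v')
    {UH : Finset V}
    {lab : V → Lh l m r K K1 S} (τ : Fin w → Option (ZMod 3)) (ι : Fin w → Option (Fin n))
    (hτι : ∀ s, ι s ≠ none → τ s = none)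
    (MM : ZMod (2 * m + 1) → Fin m → TT n → ℕ → SimpleGraph V)
    (h1 : ∀ a y t i, MM a y t i ≤ GT ν H Gc lab t ∧ IsMat (MM a y t i))
    (h2 : ∀ a y t i v v', (MM a y t i).Adj v v' →
      (v ∈ As (xp t) UH lab (a + ((y : ℕ) + 1 : ℕ)) ∧
        v' ∈ As (xp t) UH lab (a - ((y : ℕ) + 1 : ℕ))) ∨
      (v ∈ As (xp t) UH lab (a - ((y : ℕ) + 1 : ℕ)) ∧
        v' ∈ As (xp t) UH lab (a + ((y : ℕ) + 1 : ℕ))))
    (h3 : ∀ a y t i j, i ≠ j → ∀ v v', (MM a y t i).Adj v v' → ¬ (MM a y t j).Adj v v')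
    (h4 : ∀ a (y : Fin m) t i, i < (m - 1) * (univ.filter (fun s => kt τ ι s = t)).card →
      ∀ v ∈ As (xp t) UH lab (a + ((y : ℕ) + 1 : ℕ)) ∪ As (xp t) UH lab (a - ((y : ℕ) + 1 : ℕ)),
      v ∉ univ.filter (fun v => kp (lab v) = a ∧ io (lab v) = 0) →
      (nb (MM a y t i) v).Nonempty) :
    ∃ Nd : Ix m w → SimpleGraph V, NDec ν H Gc UH lab τ ι Nd := by
  set κ : Fin w → TT n := kt τ ι with hκ
  -- the type of an edge
  have huni : ∀ t t' : TT n, ∀ v v', (GT ν H Gc lab t).Adj v v' → (GT ν H Gc lab t').Adj v v' →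
      t = t' := by
    intro t t' v v' h h'
    rcases t with t | i <;> rcases t' with t' | i'
    · exact congrArg _ (ty_unique hl h.2 h'.2)
    · exact absurd h.1 (hdH i' v v' h')
    · exact absurd h'.1 (hdH i v v' h)
    · by_contra hne
      exact hdd i i' (fun h5 => hne (congrArg _ h5)) v v' h h'
  have hxp : ∀ s, xp (κ s) = τ s := by
    intro s
    cases h : ι s with
    | none =>
      rw [hκ, kt_none h]
      rfl
    | some i =>
      rw [hκ, kt_some h, hτι s (by rw [h]; simp)]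
      rfl
  set W : Fin w → ℕ := fun s => (univ.filter (fun s' => κ s' = κ s)).card with hW
  have hidx : ∀ (x : Ix m w) (y : Fin m), y ≠ x.2.1 →
      posn x.2.1 y * W x.2.2 + rk κ x.2.2 < (m - 1) * W x.2.2 := by
    intro x y hy
    have h5 := posn_lt hy
    have h6 : rk κ x.2.2 < W x.2.2 := rk_lt κ x.2.2
    have h7 : (posn x.2.1 y + 1) * W x.2.2 ≤ (m - 1) * W x.2.2 :=
      Nat.mul_le_mul_right _ (by omega)
    rw [add_mul, one_mul] at h7
    omega
  set Nd : Ix m w → SimpleGraph V := fun x =>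
    { Adj := fun v v' => ∃ y : Fin m, y ≠ x.2.1 ∧
        (MM x.1 y (κ x.2.2) (posn x.2.1 y * W x.2.2 + rk κ x.2.2)).Adj v v'
      symm := ⟨fun v v' ⟨y, hy, h⟩ => ⟨y, hy, h.symm⟩⟩
      loopless := ⟨fun v ⟨y, hy, h⟩ => (MM x.1 y _ _).loopless.irrefl v h⟩ } with hNd
  have hAdj : ∀ x v v', (Nd x).Adj v v' ↔ ∃ y : Fin m, y ≠ x.2.1 ∧
      (MM x.1 y (κ x.2.2) (posn x.2.1 y * W x.2.2 + rk κ x.2.2)).Adj v v' := by
    intro x v v'
    rfl
  -- the cell of an end determines `y`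
  have hIn : ∀ a y t i v v', (MM a y t i).Adj v v' → In2 a y (ce (lab v)) := by
    intro a y t i v v' h
    rcases h2 a y t i v v' h with ⟨h5, -⟩ | ⟨h5, -⟩
    · exact Or.inl (mem_As.1 h5).1
    · exact Or.inr (mem_As.1 h5).1
  have hsum : ∀ a y t i v v', (MM a y t i).Adj v v' → ce (lab v) + ce (lab v') = 2 * a := by
    intro a y t i v v' h
    rcases h2 a y t i v v' h with ⟨h5, h6⟩ | ⟨h5, h6⟩
    · rw [(mem_As.1 h5).1, (mem_As.1 h6).1]
      ring
    · rw [(mem_As.1 h5).1, (mem_As.1 h6).1]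
      ring
  refine ⟨Nd, ?_, ?_, ?_, ?_, ?_, ?_⟩
  · intro x v
    rw [Finset.card_le_one]
    intro z1 hz1 z2 hz2
    rw [mem_nb, hAdj] at hz1 hz2
    obtain ⟨y1, hy1, hz1⟩ := hz1
    obtain ⟨y2, hy2, hz2⟩ := hz2
    have h5 : y1 = y2 := hdet (hIn _ _ _ _ _ _ hz1) (hIn _ _ _ _ _ _ hz2)
    subst h5
    have h6 := (h1 x.1 y1 (κ x.2.2) (posn x.2.1 y1 * W x.2.2 + rk κ x.2.2)).2 v
    rw [Finset.card_le_one] at h6
    exact h6 z1 (mem_nb.2 hz1) z2 (mem_nb.2 hz2)
  · intro x i hi v v' h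
    obtain ⟨y, hy, h⟩ := (hAdj x v v').1 h
    have h5 := (h1 _ _ _ _).1 h
    have h6 : κ x.2.2 = Sum.inr i := kt_some hi
    rw [h6] at h5
    exact h5
  · intro x hi v v' h
    obtain ⟨y, hy, h⟩ := (hAdj x v v').1 h
    have h5 := (h1 _ _ _ _).1 h
    have h6 : κ x.2.2 = Sum.inl (τ x.2.2) := kt_none hi
    rw [h6] at h5
    exact h5
  · intro x v v' h
    obtain ⟨y, hy, h⟩ := (hAdj x v v').1 h
    have h5 := hIn _ _ _ _ _ _ h
    refine ⟨?_, ?_, hsum _ _ _ _ _ _ h⟩
    · rcases h2 _ _ _ _ v v' h with ⟨h6, -⟩ | ⟨h6, -⟩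
      · exact (mem_As.1 h6).2.1
      · exact (mem_As.1 h6).2.1
    · intro h6
      rcases mem_c3.1 h6 with h7 | h7
      · exact In2_ne h5 h7
      · exact hy (hdet h5 h7)
  · intro x x' hne v v' h h'
    obtain ⟨y, hy, h⟩ := (hAdj x v v').1 h
    obtain ⟨y', hy', h'⟩ := (hAdj x' v v').1 h'
    obtain ⟨a, hh, s⟩ := x
    obtain ⟨a', hh', s'⟩ := x'
    simp only at h h' hy hy'
    have h5 : a = a' := two_mul_inj ((hsum _ _ _ _ _ _ h).symm.trans (hsum _ _ _ _ _ _ h'))
    subst h5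
    have h6 : y = y' := hdet (hIn _ _ _ _ _ _ h) (hIn _ _ _ _ _ _ h')
    subst h6
    have ht : κ s = κ s' := huni _ _ v v' ((h1 _ _ _ _).1 h) ((h1 _ _ _ _).1 h')
    have hWs : W s' = W s := by
      rw [hW]
      simp only [ht]
    rw [← ht, hWs] at h'
    refine h3 a y _ _ _ ?_ v v' h h'
    intro h7
    have hs : rk κ s < W s := rk_lt κ s
    have hs' : rk κ s' < W s := by
      rw [← hWs]
      exact rk_lt κ s'
    have h8 : posn hh y = posn hh' y ∧ rk κ s = rk κ s' := by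
      have hw : 0 < W s := by omega
      have e1 : (posn hh y * W s + rk κ s) / W s = posn hh y := by
        rw [mul_comm, Nat.mul_add_div hw, Nat.div_eq_of_lt hs, add_zero]
      have e2 : (posn hh' y * W s + rk κ s') / W s = posn hh' y := by
        rw [mul_comm, Nat.mul_add_div hw, Nat.div_eq_of_lt hs', add_zero]
      have e3 : posn hh y = posn hh' y := by
        rw [← e1, ← e2, h7]
      refine ⟨e3, ?_⟩
      rw [e3] at h7
      omega
    have h9 : hh = hh' := posn_inj hy hy' h8.1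
    have h10 : s = s' := rk_inj ht h8.2
    rw [h9, h10] at hne
    exact hne rfl
  · intro x v hv hc hτ hJ
    have h5 : ce (lab v) ≠ x.1 := by
      intro h6
      exact hc (mem_c3.2 (Or.inl h6))
    obtain ⟨y, hy⟩ := exists_In2 h5
    have hyx : y ≠ x.2.1 := by
      rintro rfl
      exact hc (In2_c3 hy)
    have h6 := h4 x.1 y (κ x.2.2) (posn x.2.1 y * W x.2.2 + rk κ x.2.2) (hidx x y hyx) v (by
      rw [mem_union, mem_As, mem_As, hxp]
      rcases hy with hy | hy
      · exact Or.inl ⟨hy, hv, hτ⟩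
      · exact Or.inr ⟨hy, hv, hτ⟩) (by
      rw [mem_filter]
      exact fun h7 => hJ h7.2)
    obtain ⟨z, hz⟩ := h6
    rw [mem_nb] at hz
    exact ⟨z, mem_nb.2 ((hAdj x v z).2 ⟨y, hyx, hz⟩)⟩

end

end Pool.Agent.Work.MP_db9399_ot.helper52
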